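import Pool.Agent.Lib.MP_038c09_al.EvAs

namespace Pool.Agent.Results.MP_038c09_al.AssocEventual

open Pool.Agent.Lib.MP_038c09_al

/-- Classification of the RFD-varieties, in characteristic zero, among the varieties whose free
algebras of finite rank are associative from some degree on (in particular among all varieties of
associative algebras), by three families of identities and by four forbidden algebras of upper
triangular matrices. -/
theorem result (F : Type) [Field F] [CharZero F] (I : Set (FA F ℕ))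
    (hA : ∀ n : ℕ, ∃ N : ℕ, ∀ s t : FreeMagma (Fin n), leaves s = leaves t →
      N ≤ (leaves s).length → mon F s - mon F t ∈ idealGen (TVal I (Fin n))) :
    List.TFAE [IsRFDVariety I,
      ∃ n, 1 ≤ n ∧ ∀ x y z t : FA F ℕ,
        (x * ·)^[n] (cm n x y * (x * ·)^[n] (cm n x z)) ∈ idealGen (TVal I ℕ) ∧
        (· * x)^[n] (cm n x y * (x * ·)^[n] (cm n x z)) ∈ idealGen (TVal I ℕ) ∧
        cm n x y * (x * ·)^[n] ((· * x)^[n] (cm 1 x z)) * cm n x t ∈ idealGen (TVal I ℕ),
      ¬ Sat I (Pat F ![1, 2, 0]) ∧ ¬ Sat I (Pat F ![0, 1, 2]) ∧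
        ¬ Sat I (Pat F ![1, 2, 1]) ∧ ¬ Sat I (Pat F ![0, 1, 1, 1, 0])] := by
  tfae_have 1 ↔ 2 := EvAs.rfd_iff_three hA
  tfae_have 1 ↔ 3 := EvAs.classification hA
  tfae_finish

end Pool.Agent.Results.MP_038c09_al.AssocEventual
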