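import Pool.Agent.Lib.MP_038c09_al.Bo.B8

namespace Pool.Agent.Results.MP_038c09_al.BorelComplete

open Pool.Agent.Lib.MP_038c09_al

/-- In the space of sets of identities (characteristic functions with the product topology) the
RFD-varieties form a set that is hard for the third multiplicative Borel class, by continuous
maps whose values are T-ideals of metabelian varieties, over every field of characteristic zero,
and that belongs to this class when the field is countable. -/
theorem result (F : Type) [Field F] [CharZero F] :
    (∀ A : Set (ℕ → Bool), IsFsd A →
      ∃ f : (ℕ → Bool) → FA F ℕ → Bool, Continuous f ∧ ∀ x, IsTIdeal {g | f x g = true} ∧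
        f x (metab F) = true ∧ (x ∈ A ↔ IsRFDVariety {g | f x g = true})) ∧
    (Countable F → IsFsd {χ : FA F ℕ → Bool | IsRFDVariety {g | χ g = true}}) :=
  ⟨Bo.hard F, fun _ => Bo.member F⟩

end Pool.Agent.Results.MP_038c09_al.BorelComplete
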