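import Pool.Agent.Lib.MP_038c09_al.Pi6

namespace Pool.Agent.Results.MP_038c09_al.Pi2Complete

open Pool.Agent.Lib.MP_038c09_al

/-- The finite bases of identities that define RFD-varieties form a set that is hard for the
second universal level of the arithmetical hierarchy over every field of characteristic zero,
already among metabelian varieties, and that belongs to this level over the rationals. -/
theorem result :
    (∀ (F : Type) [Field F] [CharZero F] (R : ℕ × ℕ → Prop), REPred R →
      ∃ f : ℕ → List PCode, Computable f ∧ ∀ a, metab F ∈ polySet F (f a) ∧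
        ((∀ b, R (a, b)) ↔ IsRFDVariety (polySet F (f a)))) ∧
    ∃ R : List PCode × ℕ → Prop, REPred R ∧
      ∀ I, IsRFDVariety (polySet ℚ I) ↔ ∀ b, R (I, b) :=
  ⟨fun F _ _ R hR => Pi.pi2_hard' F R hR, Pi.pi2_upper⟩

end Pool.Agent.Results.MP_038c09_al.Pi2Complete
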