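import Pool.Agent.Lib.MP_038c09_al.LieMain

namespace Pool.Agent.Results.MP_038c09_al.Semisimple

open Pool.Agent.Lib.MP_038c09_al

/-- The variety generated by a finite-dimensional semisimple Lie algebra `g` over a field of
characteristic zero is an RFD-variety exactly when, over the algebraic closure, all simple
ideals of `g` are three-dimensional (that is, copies of `sl_2`). -/
theorem result (F : Type) [Field F] [CharZero F] (g : Type) [LieRing g] [LieAlgebra F g]
    [FiniteDimensional F g] [LieAlgebra.IsSemisimple F g] :
    IsRFDVariety (Ids F g) ↔
      ∀ I : LieIdeal (AlgebraicClosure F) (TensorProduct F (AlgebraicClosure F) g), IsAtom I →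
        Module.finrank (AlgebraicClosure F) I = 3 :=
  LieC.main

end Pool.Agent.Results.MP_038c09_al.Semisimple
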